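import Pool.Agent.V1137.FIID
import Pool.Agent.V1137.TwistedLayers

namespace Pool.Agent.Results.MP_a13a55_pr.InfinitePath

open Pool.Agent.V1137.FIID Pool.Agent.V1137.TwistedLayers

/-- There is a connected transitive `4`-regular graph with a factor-of-iid Schreier decoration which
almost surely has an infinite monochromatic path. -/
theorem result :
    ∃ (V : Type) (_ : Countable V) (G : SimpleGraph V) (d : ℕ), 1 ≤ d ∧ G.Connected ∧
      (∀ x y, ∃ σ : G ≃g G, σ x = y) ∧
      (∀ x, (G.neighborSet x).Finite ∧ (G.neighborSet x).ncard = 2 * d) ∧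
      ExistsFIID G (fun c => IsSchreier G d c ∧ HasInfinitePath c) :=
  ⟨W, inferInstance, G, 2, by norm_num, connected, transitive,
    fun x => ⟨Set.finite_of_ncard_ne_zero (by rw [degree]; norm_num), degree x⟩, fiid_dec⟩

end Pool.Agent.Results.MP_a13a55_pr.InfinitePath
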